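import Mathlib
import Pool.Agent.Helper973.Main
import Pool.Agent.Helper973.Tele

set_option autoImplicit false

/-!
For Weyl systems the Host-Kra factor of order `|P| - 1` is characteristic for the polynomial
averages of every essentially distinct family `P` with at least two members.
-/

namespace Pool.Agent.Results.MP_467fc0_an.WeylBound

open MeasureTheory Filter Topology

section general

variable {X : Type*}

/-- The multiple ergodic averages
`A_N(x) = (1/N) * ∑_{n=1}^N f₁(T^{p₁(n)} x) ⋯ f_ℓ(T^{p_ℓ(n)} x)`. -/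
noncomputable def polyAverage {ℓ : ℕ} (T : Equiv.Perm X) (p : Fin ℓ → Polynomial ℤ)
    (f : Fin ℓ → X → ℂ) (N : ℕ) : X → ℂ := fun x =>
  (N : ℂ)⁻¹ * ∑ n ∈ Finset.Icc 1 N, ∏ i, f i ((T ^ ((p i).eval (n : ℤ))) x)

/-- `seminormPow μ T k f` is `|||f|||_{k+1} ^ (2 ^ (k + 1))`, for the Host-Kra seminorms of the
system: for `k = 0` it is the square of the `L²` norm of the conditional expectation of `f` on the
`σ`-algebra of the `T`-invariant sets, and `|||f|||_{k+2} ^ (2 ^ (k + 2))` is the limit of the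
averages over `1 ≤ h ≤ H` of `|||conj f * f ∘ T ^ h|||_{k+1} ^ (2 ^ (k + 1))`; the limit exists for
bounded `f` and is written as an upper limit. -/
noncomputable def seminormPow {m0 : MeasurableSpace X} (μ : Measure X) (T : Equiv.Perm X) :
    ℕ → (X → ℂ) → ENNReal
  | 0, f => ∫⁻ x, ‖(μ[f | MeasurableSpace.invariants T]) x‖ₑ ^ 2 ∂μ
  | k + 1, f => limsup (fun H : ℕ => (H : ENNReal)⁻¹ * ∑ h ∈ Finset.Icc 1 H,
      seminormPow μ T k (fun x => (starRingEnd ℂ) (f x) * f ((T ^ h) x))) atTop

/-- `Z` is the Host-Kra factor of order `k` of the system: a `T`-invariant sub-`σ`-algebra such that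
for every bounded `f`, `E(f | Z) = 0` if and only if `|||f|||_{k+1} = 0`. -/
structure IsHostKraFactor {m0 : MeasurableSpace X} (μ : Measure X) (T : Equiv.Perm X) (k : ℕ)
    (Z : MeasurableSpace X) : Prop where
  le : Z ≤ m0
  invariant : ∀ s : Set X, MeasurableSet[Z] (T ⁻¹' s) ↔ MeasurableSet[Z] s
  condExp_eq_zero_iff : ∀ f : X → ℂ, MemLp f ⊤ μ → (μ[f | Z] =ᵐ[μ] 0 ↔ seminormPow μ T k f = 0)

/-- `Z` is characteristic for mean convergence of the averages `A_N`. -/
def IsCharacteristic {m0 : MeasurableSpace X} {ℓ : ℕ} (μ : Measure X) (T : Equiv.Perm X)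
    (p : Fin ℓ → Polynomial ℤ) (Z : MeasurableSpace X) : Prop :=
  ∀ f : Fin ℓ → X → ℂ, (∀ i, MemLp (f i) ⊤ μ) →
    Tendsto (fun N : ℕ => eLpNorm (polyAverage T p f N -
      polyAverage T p (fun i => μ[f i | Z]) N) 2 μ) atTop (𝓝 0)

end general

/-- The normalised Haar measure of the torus `𝕋^D`. -/
noncomputable def torusHaar (D : ℕ) : Measure (Fin D → UnitAddCircle) :=
  Measure.pi fun _ => AddCircle.haarAddCircle

/-- A Weyl system: a unipotent affine map `T x = A x + b` of a torus of dimension `D ≥ 1`, with `A`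
an integer matrix such that `A - 1` is nilpotent. -/
structure WeylSystem where
  D : ℕ
  one_le_D : 1 ≤ D
  A : Matrix (Fin D) (Fin D) ℤ
  unipotent : IsNilpotent (A - 1)
  b : Fin D → UnitAddCircle
  T : Equiv.Perm (Fin D → UnitAddCircle)
  T_apply : ∀ x i, T x i = (∑ j, A i j • x j) + b i

/-- A family of integer polynomials is essentially distinct if all its members and all differences
of two of its members are nonconstant. -/
def EssentiallyDistinct {ℓ : ℕ} (p : Fin ℓ → Polynomial ℤ) : Prop :=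
  (∀ i, 0 < (p i).natDegree) ∧ ∀ i j, i ≠ j → 0 < (p i - p j).natDegree

/-- The least `d` such that, for every Weyl system, the Host-Kra factor of order `d` is
characteristic for the averages (`⊤` if there is none). -/
noncomputable def dWmin {ℓ : ℕ} (p : Fin ℓ → Polynomial ℤ) : ℕ∞ :=
  sInf ((fun d : ℕ => (d : ℕ∞)) '' {d : ℕ | ∀ W : WeylSystem,
    ∀ Z : MeasurableSpace (Fin W.D → UnitAddCircle),
      IsHostKraFactor (torusHaar W.D) W.T d Z → IsCharacteristic (torusHaar W.D) W.T p Z})

lemma seminormPow_eq {X : Type*} [MeasurableSpace X] (μ : Measure X) (T : Equiv.Perm X) (k : ℕ) :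
    ∀ f : X → ℂ, seminormPow μ T k f = Pool.Agent.Helper973.HK.hkPow μ T k f := by
  induction k with
  | zero => intro f; rfl
  | succ k ih =>
    intro f
    simp only [seminormPow, Pool.Agent.Helper973.HK.hkPow, ih]

/-- For every Weyl system the averages go to zero as soon as one function has vanishing seminorm of
order `ℓ`. -/
theorem seminorm_controls {ℓ : ℕ} (hℓ : 2 ≤ ℓ) (p : Fin ℓ → Polynomial ℤ)
    (hp : EssentiallyDistinct p) (W : WeylSystem)
    (f : Fin ℓ → (Fin W.D → UnitAddCircle) → ℂ) (hf : ∀ i, MemLp (f i) ⊤ (torusHaar W.D))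
    (hj : ∃ j, seminormPow (torusHaar W.D) W.T (ℓ - 1) (f j) = 0) :
    Tendsto (fun N : ℕ => eLpNorm (polyAverage W.T p f N) 2 (torusHaar W.D)) atTop (𝓝 0) := by
  obtain ⟨j, hj⟩ := hj
  obtain ⟨m, hm⟩ := W.unipotent
  have hm' : (W.A - 1) ^ (m + 1) = 0 := by rw [pow_succ, hm, zero_mul]
  have hT : ∀ x, W.T x = Pool.Agent.Helper973.Tor.mact (1 + (W.A - 1)) x + W.b := by
    intro x
    funext i
    rw [W.T_apply, add_sub_cancel]
    rfl
  rw [seminormPow_eq] at hj
  exact Pool.Agent.Helper973.Main.seminorm_char hm' (Nat.succ_pos m) hℓ W.T W.b hT p hp.1 hp.2 f hf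
    j hj

instance (D : ℕ) : IsProbabilityMeasure (torusHaar D) := by unfold torusHaar; infer_instance

lemma measurePreserving_zpow (W : WeylSystem) (t : ℤ) :
    MeasurePreserving (W.T ^ t : Equiv.Perm (Fin W.D → UnitAddCircle))
      (torusHaar W.D) (torusHaar W.D) := by
  obtain ⟨m, hm⟩ := W.unipotent
  have hm' : (W.A - 1) ^ (m + 1) = 0 := by rw [pow_succ, hm, zero_mul]
  have hT : ∀ x, W.T x = Pool.Agent.Helper973.Tor.mact (1 + (W.A - 1)) x + W.b := by
    intro x
    funext i
    rw [W.T_apply, add_sub_cancel]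
    rfl
  exact Pool.Agent.Helper973.Chr.mp_affine (W.T ^ t) _ _ (fun x =>
      Pool.Agent.Helper973.Tor.zpow_apply hm' (Nat.succ_pos m) W.T W.b hT t x)

/-- For every Weyl system the Host-Kra factor of order `ℓ - 1` is characteristic. -/
theorem characteristic {ℓ : ℕ} (hℓ : 2 ≤ ℓ) (p : Fin ℓ → Polynomial ℤ)
    (hp : EssentiallyDistinct p) (W : WeylSystem)
    (Z : MeasurableSpace (Fin W.D → UnitAddCircle)) :
    IsHostKraFactor (torusHaar W.D) W.T (ℓ - 1) Z →
    IsCharacteristic (torusHaar W.D) W.T p Z := by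
  intro hZ f hf
  refine Pool.Agent.Helper973.Tele.telescope (T := W.T) (p := p) hZ.le
    (measurePreserving_zpow W) ?_ f hf
  intro g hg hj
  obtain ⟨j, hj⟩ := hj
  exact seminorm_controls hℓ p hp W g hg ⟨j, (hZ.condExp_eq_zero_iff (g j) (hg j)).1 hj⟩

/-- For every essentially distinct family of `ℓ ≥ 2` integer polynomials the least order of a
Host-Kra factor that is characteristic for all Weyl systems is at most `ℓ - 1`. Moreover for every
Weyl system the averages go to zero in `L²` whenever one of the functions has vanishing Host-Kra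
seminorm of order `ℓ`. -/
theorem result {ℓ : ℕ} (hℓ : 2 ≤ ℓ) (p : Fin ℓ → Polynomial ℤ) (hp : EssentiallyDistinct p) :
    dWmin p ≤ ((ℓ - 1 : ℕ) : ℕ∞) ∧
    (∀ (W : WeylSystem) (Z : MeasurableSpace (Fin W.D → UnitAddCircle)),
      IsHostKraFactor (torusHaar W.D) W.T (ℓ - 1) Z → IsCharacteristic (torusHaar W.D) W.T p Z) ∧
    (∀ (W : WeylSystem) (f : Fin ℓ → (Fin W.D → UnitAddCircle) → ℂ),
      (∀ i, MemLp (f i) ⊤ (torusHaar W.D)) →
      (∃ j, seminormPow (torusHaar W.D) W.T (ℓ - 1) (f j) = 0) →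
      Tendsto (fun N : ℕ => eLpNorm (polyAverage W.T p f N) 2 (torusHaar W.D)) atTop (𝓝 0)) := by
  refine ⟨?_, fun W Z hZ => characteristic hℓ p hp W Z hZ,
    fun W f hf hj => seminorm_controls hℓ p hp W f hf hj⟩
  apply sInf_le
  exact ⟨ℓ - 1, fun W Z hZ => characteristic hℓ p hp W Z hZ, rfl⟩

end Pool.Agent.Results.MP_467fc0_an.WeylBound
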